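import Pool.Agent.Work.MP_b3e27a_co.Final

/-!
The maximum Euler Sombor index of chemical unicyclic graphs on `n ≥ 3` vertices, and all the
graphs attaining it.
-/

namespace Pool.Agent.Results.MP_b3e27a_co.MaxEulerSombor

open Pool.Agent.Work.MP_b3e27a_co

theorem result (n : ℕ) (hn : 3 ≤ n) :
    IsGreatest {t : ℝ | ∃ G : SimpleGraph (Fin n), ChemUnicyclic G ∧ EUS G = t} (M n) ∧
    ∀ G : SimpleGraph (Fin n), ChemUnicyclic G → (EUS G = M n ↔ Extremal G) := by
  refine ⟨⟨?_, ?_⟩, fun G hG => (upper hn G hG).2⟩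
  · obtain ⟨G, hG, hE⟩ := exist_ext hn
    exact ⟨G, hG, (upper hn G hG).2.2 hE⟩
  · rintro t ⟨G, hG, rfl⟩
    exact (upper hn G hG).1

end Pool.Agent.Results.MP_b3e27a_co.MaxEulerSombor
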